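import Pool.Agent.Q155.CW.Basic

/-!
# Progressions in the fibres of polynomial maps of low degree
-/

set_option autoImplicit false

open MvPolynomial Finset

namespace Pool.Agent.Q155.CW

variable {p : ℕ} [hp : Fact p.Prime]

theorem eval_bind {n : ℕ} (g : Fin n → MvPolynomial (Fin n) (ZMod p))
    (f : MvPolynomial (Fin n) (ZMod p)) (y : Fin n → ZMod p) :
    eval y (bind₁ g f) = eval (fun s => eval y (g s)) f := by
  rw [← coe_aeval_eq_eval, ← coe_aeval_eq_eval]
  simp only [RingHom.coe_coe]
  rw [aeval_bind₁]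

/-- the number of equations times degrees which force a progression or a line -/
def cost (k d : ℕ) : ℕ := min ((k - 1) * d) (d * (d + 1) / 2)

theorem shift_deg {n : ℕ} (x : Fin n → ZMod p) (c : ZMod p) (s : Fin n) :
    (C (x s) + C c * X s : MvPolynomial (Fin n) (ZMod p)).totalDegree ≤ 1 := by
  refine (totalDegree_add _ _).trans (max_le ?_ ?_)
  · rw [totalDegree_C]; exact Nat.zero_le _
  · refine (totalDegree_mul _ _).trans ?_
    rw [totalDegree_C, zero_add]
    exact (totalDegree_X (R := ZMod p) s).le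

theorem ap_family {n : ℕ} (k : ℕ) (f : MvPolynomial (Fin n) (ZMod p)) (x : Fin n → ZMod p) :
    ∃ (L : ℕ) (h : Fin L → MvPolynomial (Fin n) (ZMod p)), (∀ l, eval 0 (h l) = 0) ∧
      ∑ l, (h l).totalDegree ≤ cost k f.totalDegree ∧
      ∀ y, (∀ l, eval y (h l) = 0) → ∀ j < k, eval (x + j • y) f = eval x f := by
  have hsh : ∀ (c : ZMod p) (y : Fin n → ZMod p),
      eval y (bind₁ (fun s => C (x s) + C c * X s) f) = eval (x + c • y) f := by
    intro c y
    rw [eval_bind]
    congr 2
    funext s
    simp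
  have hsm : ∀ (j : ℕ) (y : Fin n → ZMod p), (j : ZMod p) • y = j • y := fun j y =>
    Nat.cast_smul_eq_nsmul (ZMod p) j y
  rcases le_total ((k - 1) * f.totalDegree) (f.totalDegree * (f.totalDegree + 1) / 2) with hc | hc
  · refine ⟨k - 1, fun l => bind₁ (fun s => C (x s) + C ((l.1 + 1 : ℕ) : ZMod p) * X s) f -
      C (eval x f), ?_, ?_, ?_⟩
    · intro l
      rw [map_sub, hsh, eval_C, smul_zero, add_zero, sub_self]
    · rw [cost, min_eq_left hc]
      have : ∀ l : Fin (k - 1), (bind₁ (fun s => C (x s) + C ((l.1 + 1 : ℕ) : ZMod p) * X s) f -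
          C (eval x f)).totalDegree ≤ f.totalDegree := by
        intro l
        refine (totalDegree_sub _ _).trans (max_le ?_ ?_)
        · exact totalDegree_bind _ (fun s => shift_deg x _ s) f
        · rw [totalDegree_C]; exact Nat.zero_le _
      refine (sum_le_sum fun l _ => this l).trans (le_of_eq ?_)
      rw [sum_const, card_univ, Fintype.card_fin, smul_eq_mul]
    · intro y hy j hj
      rcases Nat.eq_zero_or_pos j with h0 | h0
      · subst h0; simp
      · have := hy ⟨j - 1, by omega⟩
        simp only [map_sub, hsh, eval_C] at this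
        rw [Nat.sub_add_cancel h0, hsm] at this
        exact sub_eq_zero.mp this
  · set g := bind₁ (fun s => C (x s) + C (1 : ZMod p) * X s) f with hg
    have hgd : g.totalDegree ≤ f.totalDegree := totalDegree_bind _ (fun s => shift_deg x _ s) f
    have hge : ∀ y, eval y g = eval (x + y) f := fun y => by
      rw [hg, hsh, one_smul]
    refine ⟨f.totalDegree, fun l => homogeneousComponent (l.1 + 1) g, ?_, ?_, ?_⟩
    · intro l
      have := eval_hom (homogeneousComponent_isHomogeneous (l.1 + 1) g) 0 (0 : Fin n → ZMod p)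
      rw [smul_zero] at this
      rw [this, zero_pow (by omega), zero_mul]
    · rw [cost, min_eq_right hc]
      have h1 : ∑ l : Fin f.totalDegree, (homogeneousComponent (l.1 + 1) g).totalDegree ≤
          ∑ l : Fin f.totalDegree, (l.1 + 1) := sum_le_sum fun l _ =>
        (homogeneousComponent_isHomogeneous (l.1 + 1) g).totalDegree_le
      refine h1.trans (le_of_eq ?_)
      rw [Fin.sum_univ_eq_sum_range (fun l => l + 1)]
      have h2 := sum_range_succ' (fun i => i) f.totalDegree
      rw [add_zero] at h2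
      rw [← h2, sum_range_id, Nat.add_sub_cancel, mul_comm]
    · intro y hy j hj
      have h1 : ∀ t : ZMod p, eval (t • y) g = coeff 0 g := by
        intro t
        have h2 : eval (t • y) g = eval (t • y) (∑ i ∈ range (g.totalDegree + 1),
            homogeneousComponent i g) := by rw [sum_homogeneousComponent]
        rw [h2, map_sum, sum_range_succ', homogeneousComponent_zero, eval_C]
        rw [Finset.sum_eq_zero, zero_add]
        intro i hi
        rw [eval_hom (homogeneousComponent_isHomogeneous (i + 1) g)]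
        have h3 : i < f.totalDegree := lt_of_lt_of_le (mem_range.mp hi) hgd
        have h4 := hy ⟨i, h3⟩
        simp only at h4
        rw [h4, mul_zero]
      have h5 := h1 j
      have h6 := h1 0
      rw [zero_smul] at h6
      rw [hge] at h5 h6
      rw [add_zero] at h6
      rw [← hsm, h5, h6]

open Classical in
/-- every point is the first term of many progressions in its fibre -/
theorem ap_fibre {n r : ℕ} (k : ℕ) (f : Fin r → MvPolynomial (Fin n) (ZMod p))
    (x : Fin n → ZMod p) :
    (p - 1) * p ^ n ≤ (p ^ (∑ i, cost k (f i).totalDegree + 1) - 1) *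
      (univ.filter fun y : Fin n → ZMod p =>
        ∀ j < k, ∀ i, eval (x + j • y) (f i) = eval x (f i)).card := by
  choose L h h0 hd hy using fun i => ap_family k (f i) x
  let H : (Σ i : Fin r, Fin (L i)) → MvPolynomial (Fin n) (ZMod p) := fun q => h q.1 q.2
  have hD : ∑ q, (H q).totalDegree ≤ ∑ i, cost k (f i).totalDegree := by
    rw [Fintype.sum_sigma]
    exact sum_le_sum fun i _ => hd i
  refine (zeros_ge H (fun q => h0 q.1 q.2) _ hD).trans (Nat.mul_le_mul_left _ (card_le_card ?_))
  intro y hy'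
  rw [mem_filter] at hy' ⊢
  exact ⟨mem_univ _, fun j hj i => hy i y (fun l => hy'.2 ⟨i, l⟩) j hj⟩

/-- double counting of configurations -/
theorem pairs {X Y : Type} [DecidableEq X] [DecidableEq Y] [Fintype Y] [Zero Y] (k : ℕ)
    (act : Fin k → X → Y → X) (hinj : ∀ j y, Function.Injective fun x => act j x y)
    (A' A : Finset X) (Yx : X → Finset Y)
    (hin : ∀ x ∈ A', ∀ y ∈ Yx x, ∀ j, act j x y ∈ A')
    (hfree : ∀ x y, (∀ j, act j x y ∈ A) → y = 0) :
    ∑ x ∈ A', ((Yx x).erase 0).card ≤ k * ((Fintype.card Y - 1) * (A' \ A).card) := by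
  have h1 : ∀ x ∈ A', ((Yx x).erase 0).card ≤
      ∑ y ∈ univ.erase (0 : Y), ∑ j : Fin k, if act j x y ∈ A' \ A then 1 else 0 := by
    intro x hx
    have e1 : ((Yx x).erase 0).card = ∑ y ∈ (Yx x).erase 0, 1 := by simp
    rw [e1]
    have hsub : (Yx x).erase 0 ⊆ univ.erase (0 : Y) := erase_subset_erase _ (subset_univ _)
    refine le_trans (sum_le_sum fun y hy => ?_) (sum_le_sum_of_subset hsub)
    obtain ⟨hy0, hyx⟩ := mem_erase.mp hy
    obtain ⟨j, hj⟩ : ∃ j, act j x y ∉ A := by
      by_contra hcon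
      push Not at hcon
      exact hy0 (hfree x y hcon)
    have h2 : act j x y ∈ A' \ A := mem_sdiff.mpr ⟨hin x hx y hyx j, hj⟩
    calc 1 = if act j x y ∈ A' \ A then 1 else 0 := by rw [if_pos h2]
      _ ≤ _ := single_le_sum (f := fun j => if act j x y ∈ A' \ A then 1 else 0)
        (fun _ _ => Nat.zero_le _) (mem_univ j)
  refine (sum_le_sum h1).trans ?_
  rw [sum_comm]
  have h3 : ∀ y ∈ univ.erase (0 : Y), (∑ x ∈ A', ∑ j : Fin k,
      if act j x y ∈ A' \ A then 1 else 0) ≤ k * (A' \ A).card := by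
    intro y _
    rw [sum_comm]
    have h4 : ∀ j : Fin k, (∑ x ∈ A', if act j x y ∈ A' \ A then 1 else 0) ≤ (A' \ A).card := by
      intro j
      rw [← card_filter]
      exact card_le_card_of_injOn (fun x => act j x y)
        (fun x hx => (mem_filter.mp (mem_coe.mp hx)).2) ((hinj j y).injOn)
    refine (sum_le_sum fun j _ => h4 j).trans (le_of_eq ?_)
    rw [sum_const, card_univ, Fintype.card_fin, smul_eq_mul]
  refine (sum_le_sum h3).trans (le_of_eq ?_)
  rw [sum_const, card_erase_of_mem (mem_univ _), card_univ, smul_eq_mul]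
  ring

theorem count {X Y : Type} [DecidableEq X] [DecidableEq Y] [Fintype Y] [Zero Y] (k : ℕ)
    (act : Fin k → X → Y → X) (hinj : ∀ j y, Function.Injective fun x => act j x y)
    (A' A : Finset X) (Yx : X → Finset Y)
    (hin : ∀ x ∈ A', ∀ y ∈ Yx x, ∀ j, act j x y ∈ A')
    (hfree : ∀ x y, (∀ j, act j x y ∈ A) → y = 0) (c₁ c₂ : ℕ)
    (hc : ∀ x ∈ A', c₁ ≤ c₂ * (Yx x).card) :
    c₁ * A'.card ≤ c₂ * (k * ((Fintype.card Y - 1) * (A' \ A).card)) + c₂ * A'.card := by
  have h1 := pairs k act hinj A' A Yx hin hfree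
  have h2 : ∀ x ∈ A', c₁ ≤ c₂ * ((Yx x).erase 0).card + c₂ := by
    intro x hx
    refine (hc x hx).trans ?_
    have h3 : (Yx x).card ≤ ((Yx x).erase 0).card + 1 := by
      have := pred_card_le_card_erase (s := Yx x) (a := 0)
      omega
    calc c₂ * (Yx x).card ≤ c₂ * (((Yx x).erase 0).card + 1) := Nat.mul_le_mul_left _ h3
      _ = _ := by ring
  have h3 := sum_le_sum h2
  rw [sum_const, smul_eq_mul, sum_add_distrib, ← mul_sum, sum_const, smul_eq_mul] at h3
  calc c₁ * A'.card = A'.card * c₁ := mul_comm _ _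
    _ ≤ _ := h3
    _ ≤ c₂ * (k * ((Fintype.card Y - 1) * (A' \ A).card)) + A'.card * c₂ :=
        Nat.add_le_add_right (Nat.mul_le_mul_left _ h1) _
    _ = _ := by ring

end Pool.Agent.Q155.CW
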