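import Mathlib

/-!
# Common zeros of polynomials of small total degree
-/

set_option autoImplicit false

open MvPolynomial Finset

namespace Pool.Agent.Q155.CW

theorem totalDegree_bind {R σ τ : Type} [CommRing R] (g : σ → MvPolynomial τ R)
    (hg : ∀ i, (g i).totalDegree ≤ 1) (f : MvPolynomial σ R) :
    (bind₁ g f).totalDegree ≤ f.totalDegree := by
  have e : bind₁ g f = ∑ s ∈ f.support, C (coeff s f) * ∏ i ∈ s.support, g i ^ s i := by
    rw [bind₁, aeval_def, eval₂_eq]
    rfl
  rw [e]
  refine totalDegree_finsetSum_le fun s hs => ?_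
  refine (totalDegree_mul _ _).trans ?_
  rw [totalDegree_C, zero_add]
  refine (totalDegree_finsetProd _ _).trans ?_
  refine le_trans (sum_le_sum fun i _ => (totalDegree_pow (g i) (s i)).trans
    (Nat.mul_le_mul_left _ (hg i))) ?_
  simp only [mul_one]
  exact le_totalDegree hs

theorem eval_hom {R σ : Type} [CommRing R] {φ : MvPolynomial σ R} {j : ℕ}
    (h : φ.IsHomogeneous j) (t : R) (y : σ → R) :
    eval (t • y) φ = t ^ j * eval y φ := by
  rw [eval_eq, eval_eq, mul_sum]
  refine sum_congr rfl fun s hs => ?_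
  have h1 : ∑ i ∈ s.support, s i = j := by
    have := h (mem_support_iff.mp hs)
    rw [Finsupp.weight_apply] at this
    simpa [Finsupp.sum] using this
  have h2 : ∏ i ∈ s.support, (t • y) i ^ s i = t ^ j * ∏ i ∈ s.support, y i ^ s i := by
    simp only [Pi.smul_apply, smul_eq_mul, mul_pow]
    rw [prod_mul_distrib, prod_pow_eq_pow_sum, h1]
  rw [h2]
  ring

variable {p : ℕ} [hp : Fact p.Prime]

/-- the number of solutions of one linear equation -/
theorem card_row {N : ℕ} {z : Fin (N + 1) → ZMod p} (hz : z ≠ 0) (c : ZMod p) :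
    (univ.filter fun m : Fin (N + 1) → ZMod p => ∑ a, m a * z a = c).card = p ^ N := by
  obtain ⟨a0, ha0⟩ : ∃ a, z a ≠ 0 := by
    by_contra h
    push Not at h
    exact hz (funext h)
  have hcard : ∀ c : ZMod p, (univ.filter fun m : Fin (N + 1) → ZMod p => ∑ a, m a * z a = c).card =
      (univ.filter fun m : Fin (N + 1) → ZMod p => ∑ a, m a * z a = 0).card := by
    intro c
    refine card_bij' (fun m _ => m - Pi.single a0 (c / z a0)) (fun m _ => m + Pi.single a0 (c / z a0))
      ?_ ?_ ?_ ?_
    · intro m hm
      rw [mem_filter] at hm ⊢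
      refine ⟨mem_univ _, ?_⟩
      simp only [Pi.sub_apply, sub_mul, sum_sub_distrib, hm.2]
      rw [Finset.sum_eq_single a0]
      · rw [Pi.single_eq_same, div_mul_cancel₀ _ ha0, sub_self]
      · intro b _ hb
        rw [Pi.single_eq_of_ne hb, zero_mul]
      · intro h; exact absurd (mem_univ _) h
    · intro m hm
      rw [mem_filter] at hm ⊢
      refine ⟨mem_univ _, ?_⟩
      simp only [Pi.add_apply, add_mul, sum_add_distrib, hm.2]
      rw [Finset.sum_eq_single a0]
      · rw [Pi.single_eq_same, div_mul_cancel₀ _ ha0, zero_add]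
      · intro b _ hb
        rw [Pi.single_eq_of_ne hb, zero_mul]
      · intro h; exact absurd (mem_univ _) h
    · intro m _; simp
    · intro m _; simp
  have htot : ∑ c : ZMod p, (univ.filter fun m : Fin (N + 1) → ZMod p =>
      ∑ a, m a * z a = c).card = p ^ (N + 1) := by
    rw [← card_eq_sum_card_fiberwise (fun _ _ => mem_univ _)]
    rw [card_univ, Fintype.card_fun, ZMod.card, Fintype.card_fin]
  simp only [hcard] at htot
  rw [sum_const, card_univ, ZMod.card, smul_eq_mul, pow_succ'] at htot
  rw [hcard c]
  exact Nat.eq_of_mul_eq_mul_left hp.out.pos htot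

/-- the number of matrices with a given image of a nonzero vector -/
theorem card_mat {N n : ℕ} {z : Fin (N + 1) → ZMod p} (hz : z ≠ 0) (y : Fin n → ZMod p) :
    (univ.filter fun M : Fin n → Fin (N + 1) → ZMod p =>
      (fun s => ∑ a, M s a * z a) = y).card = p ^ (N * n) := by
  have e : (univ.filter fun M : Fin n → Fin (N + 1) → ZMod p =>
      (fun s => ∑ a, M s a * z a) = y) =
      Fintype.piFinset fun s => univ.filter fun m : Fin (N + 1) → ZMod p =>
        ∑ a, m a * z a = y s := by
    ext M
    simp only [mem_filter, mem_univ, true_and, Fintype.mem_piFinset]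
    exact funext_iff
  rw [e, Fintype.card_piFinset]
  simp only [card_row hz]
  rw [prod_const, card_univ, Fintype.card_fin, ← pow_mul]

open Classical in
/-- a family of polynomials without constant terms and of total degree less than `n` has many
common zeros -/
theorem zeros_ge {n : ℕ} {ι : Type} [Fintype ι] (h : ι → MvPolynomial (Fin n) (ZMod p))
    (h0 : ∀ l, eval 0 (h l) = 0) (D : ℕ) (hD : ∑ l, (h l).totalDegree ≤ D) :
    (p - 1) * p ^ n ≤ (p ^ (D + 1) - 1) *
      (univ.filter fun y : Fin n → ZMod p => ∀ l, eval y (h l) = 0).card := by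
  set Sol := univ.filter fun y : Fin n → ZMod p => ∀ l, eval y (h l) = 0 with hSol
  let Mat := Fin n → Fin (D + 1) → ZMod p
  let act : Mat → (Fin (D + 1) → ZMod p) → Fin n → ZMod p := fun M z s => ∑ a, M s a * z a
  have key : ∀ M : Mat, p - 1 ≤ (univ.filter fun z : Fin (D + 1) → ZMod p =>
      z ≠ 0 ∧ act M z ∈ Sol).card := by
    intro M
    let g : Fin n → MvPolynomial (Fin (D + 1)) (ZMod p) := fun s => ∑ a, C (M s a) * X a
    have hg : ∀ s, (g s).totalDegree ≤ 1 := fun s => by
      refine totalDegree_finsetSum_le fun a _ => ?_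
      refine (totalDegree_mul _ _).trans ?_
      rw [totalDegree_C, zero_add]
      exact (totalDegree_X (R := ZMod p) a).le
    let hM : ι → MvPolynomial (Fin (D + 1)) (ZMod p) := fun l => bind₁ g (h l)
    have hev : ∀ l z, eval z (hM l) = eval (act M z) (h l) := by
      intro l z
      simp only [hM]
      rw [← coe_aeval_eq_eval, ← coe_aeval_eq_eval]
      simp only [RingHom.coe_coe]
      rw [aeval_bind₁]
      congr 2
      funext s
      simp [g, act]
    have hdeg : ∑ l, (hM l).totalDegree < Fintype.card (Fin (D + 1)) := by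
      rw [Fintype.card_fin]
      refine Nat.lt_succ_of_le (le_trans ?_ hD)
      exact sum_le_sum fun l _ => totalDegree_bind g hg (h l)
    have hcw := char_dvd_card_solutions_of_fintype_sum_lt (K := ZMod p) p hdeg
    have hact0 : act M 0 = 0 := by
      funext s
      simp [act]
    have hz0 : ∀ l, eval 0 (hM l) = 0 := fun l => by rw [hev, hact0, h0]
    have e1 : Fintype.card {x : Fin (D + 1) → ZMod p // ∀ i, eval x (hM i) = 0} =
        (univ.filter fun z : Fin (D + 1) → ZMod p => act M z ∈ Sol).card := by
      rw [Fintype.card_subtype]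
      congr 1
      ext z
      simp only [mem_filter, mem_univ, true_and, hSol, hev]
    rw [e1] at hcw
    have hpos : 0 < (univ.filter fun z : Fin (D + 1) → ZMod p => act M z ∈ Sol).card := by
      refine card_pos.mpr ⟨0, ?_⟩
      rw [mem_filter, hSol, mem_filter]
      refine ⟨mem_univ _, mem_univ _, fun l => ?_⟩
      rw [hact0, h0]
    have hge := Nat.le_of_dvd hpos hcw
    have e2 : (univ.filter fun z : Fin (D + 1) → ZMod p => act M z ∈ Sol) ⊆
        insert 0 (univ.filter fun z : Fin (D + 1) → ZMod p => z ≠ 0 ∧ act M z ∈ Sol) := by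
      intro z hz
      rw [mem_filter] at hz
      rw [mem_insert, mem_filter]
      by_cases h : z = 0
      · exact Or.inl h
      · exact Or.inr ⟨mem_univ _, h, hz.2⟩
    have h3 := (card_le_card e2).trans (card_insert_le _ _)
    omega
  have hcount : ∑ M : Mat, (univ.filter fun z : Fin (D + 1) → ZMod p =>
      z ≠ 0 ∧ act M z ∈ Sol).card = (p ^ (D + 1) - 1) * (Sol.card * p ^ (D * n)) := by
    have e1 : ∀ M : Mat, (univ.filter fun z : Fin (D + 1) → ZMod p =>
        z ≠ 0 ∧ act M z ∈ Sol).card = ∑ z ∈ univ.erase (0 : Fin (D + 1) → ZMod p),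
          if act M z ∈ Sol then 1 else 0 := by
      intro M
      rw [← card_filter]
      congr 1
      ext z
      simp only [mem_filter, mem_univ, true_and, mem_erase, and_true]
    simp only [e1]
    rw [sum_comm]
    have e2 : ∀ z ∈ univ.erase (0 : Fin (D + 1) → ZMod p),
        (∑ M : Mat, if act M z ∈ Sol then 1 else 0) = Sol.card * p ^ (D * n) := by
      intro z hz
      have hz0 : z ≠ 0 := (mem_erase.mp hz).1
      rw [← card_filter]
      have e3 := card_eq_sum_card_fiberwise (s := univ.filter fun M : Mat => act M z ∈ Sol)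
        (f := fun M : Mat => act M z) (t := Sol)
        (fun M hM => (mem_filter.mp (mem_coe.mp hM)).2)
      rw [e3, ← smul_eq_mul, ← sum_const]
      refine sum_congr rfl fun y hy => ?_
      rw [← card_mat hz0 y]
      congr 1
      ext M
      simp only [mem_filter, mem_univ, true_and]
      constructor
      · rintro ⟨_, h⟩; exact h
      · intro h
        refine ⟨?_, h⟩
        have : act M z = y := h
        rw [this]; exact hy
    rw [sum_congr rfl e2, sum_const, card_erase_of_mem (mem_univ _), card_univ,
      Fintype.card_fun, ZMod.card, Fintype.card_fin, smul_eq_mul]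
  have hlow : (p - 1) * p ^ ((D + 1) * n) ≤ ∑ M : Mat, (univ.filter fun z : Fin (D + 1) → ZMod p =>
      z ≠ 0 ∧ act M z ∈ Sol).card := by
    have : ∑ _M : Mat, (p - 1) ≤ ∑ M : Mat, (univ.filter fun z : Fin (D + 1) → ZMod p =>
      z ≠ 0 ∧ act M z ∈ Sol).card := sum_le_sum fun M _ => key M
    refine le_trans (le_of_eq ?_) this
    rw [sum_const, card_univ, smul_eq_mul, mul_comm]
    congr 1
    show _ = Fintype.card (Fin n → Fin (D + 1) → ZMod p)
    rw [Fintype.card_fun, Fintype.card_fun, ZMod.card, Fintype.card_fin, Fintype.card_fin, ← pow_mul]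
  rw [hcount] at hlow
  have hpp : 0 < p ^ (D * n) := pow_pos hp.out.pos _
  refine Nat.le_of_mul_le_mul_right ?_ hpp
  calc (p - 1) * p ^ n * p ^ (D * n) = (p - 1) * p ^ ((D + 1) * n) := by
        rw [mul_assoc, ← pow_add]; congr 2; ring
    _ ≤ _ := hlow
    _ = _ := by ring

end Pool.Agent.Q155.CW
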