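import Pool.Agent.Q155.CW.AP

/-!
# Norm layers as polynomials of several variables

A polynomial of total degree at most `d` in `1 + 2 + ⋯ + d` variables over a finite field whose
restriction to every line is nonconstant.  (The functions are those of the file `NormLayer` of the
starting library; here they are given by polynomials.)
-/

set_option autoImplicit false

open MvPolynomial Finset

namespace Pool.Agent.Q155.CW

theorem det_deg {K σ : Type} [Field K] {j : ℕ} (M : Matrix (Fin j) (Fin j) (MvPolynomial σ K))
    (hM : ∀ a c, (M a c).totalDegree ≤ 1) : M.det.totalDegree ≤ j := by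
  rw [Matrix.det_apply]
  refine totalDegree_finsetSum_le fun s _ => ?_
  have h1 : (Equiv.Perm.sign s • ∏ i, M (s i) i).totalDegree ≤ (∏ i, M (s i) i).totalDegree := by
    rcases Int.units_eq_one_or (Equiv.Perm.sign s) with h | h
    · rw [h, one_smul]
    · rw [h]
      simp only [Units.neg_smul, one_smul, totalDegree_neg, le_refl]
  refine h1.trans ((totalDegree_finsetProd _ _).trans ?_)
  refine (sum_le_sum fun i _ => hM (s i) i).trans ?_
  simp

theorem norm_form (K : Type) [Field K] [Fintype K] (j : ℕ) (hj : j ≠ 0) :
    ∃ N : MvPolynomial (Fin j) K, N.totalDegree ≤ j ∧ ∀ x u : Fin j → K,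
    ∃ g : Polynomial K, g.natDegree ≤ j ∧ (u ≠ 0 → g.coeff j ≠ 0) ∧
      (u = 0 → g = Polynomial.C (eval x N)) ∧ ∀ s : K, eval (x + s • u) N = g.eval s := by
  classical
  obtain ⟨p, hp⟩ := CharP.exists K
  have hpp : Fact p.Prime := ⟨CharP.char_is_prime K p⟩
  have hj' : NeZero j := ⟨hj⟩
  let L := FiniteField.Extension K p j
  let b : Module.Basis (Fin j) K L :=
    Module.finBasisOfFinrankEq K L (FiniteField.finrank_extension K p j)
  let φ : (Fin j → K) →ₗ[K] Matrix (Fin j) (Fin j) K :=
    (Algebra.leftMulMatrix b).toLinearMap.comp b.equivFun.symm.toLinearMap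
  have hdet : ∀ u : Fin j → K, u ≠ 0 → (φ u).det ≠ 0 := by
    intro u hu
    have h1 : (φ u).det = Algebra.norm K (b.equivFun.symm u) := by
      rw [Algebra.norm_eq_matrix_det b]
      rfl
    rw [h1, Algebra.norm_ne_zero_iff]
    exact (LinearEquiv.map_ne_zero_iff b.equivFun.symm).mpr hu
  let M : Matrix (Fin j) (Fin j) (MvPolynomial (Fin j) K) :=
    fun a c => ∑ i, C (φ (Pi.single i 1) a c) * X i
  have hev : ∀ x : Fin j → K, eval x M.det = (φ x).det := by
    intro x
    rw [RingHom.map_det]
    congr 1
    ext a c
    have hx : x = ∑ i, x i • (Pi.single i 1 : Fin j → K) := by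
      funext t
      simp [Finset.sum_apply, Pi.single_apply]
    have e1 : φ x = ∑ i, x i • φ (Pi.single i 1) := by
      conv_lhs => rw [hx, map_sum]
      exact sum_congr rfl fun i _ => map_smul _ _ _
    rw [e1, Matrix.sum_apply]
    change eval x (∑ i, C (φ (Pi.single i 1) a c) * X i) = _
    rw [map_sum]
    refine sum_congr rfl fun i _ => ?_
    rw [map_mul, eval_C, eval_X, Matrix.smul_apply, smul_eq_mul, mul_comm]
  refine ⟨M.det, det_deg M fun a c => ?_, ?_⟩
  · refine totalDegree_finsetSum_le fun i _ => ?_
    refine (totalDegree_mul _ _).trans ?_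
    rw [totalDegree_C, zero_add]
    exact (totalDegree_X (R := K) i).le
  intro x u
  by_cases hu : u = 0
  · refine ⟨Polynomial.C ((φ x).det), ?_, ?_, ?_, ?_⟩
    · rw [Polynomial.natDegree_C]
      exact Nat.zero_le _
    · intro h
      exact absurd hu h
    · intro _
      rw [hev]
    · intro s
      rw [hev]
      simp [hu]
  · refine ⟨Matrix.det ((Polynomial.X : Polynomial K) • (φ u).map Polynomial.C +
      (φ x).map Polynomial.C), ?_, ?_, ?_, ?_⟩
    · have := Polynomial.natDegree_det_X_add_C_le (φ u) (φ x)
      simpa using this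
    · intro _
      have := Polynomial.coeff_det_X_add_C_card (φ u) (φ x)
      rw [Fintype.card_fin] at this
      rw [this]
      exact hdet u hu
    · intro h
      exact absurd h hu
    · intro s
      have h1 : Polynomial.eval s (Matrix.det ((Polynomial.X : Polynomial K) •
          (φ u).map Polynomial.C + (φ x).map Polynomial.C)) =
          Matrix.det ((Polynomial.evalRingHom s).mapMatrix ((Polynomial.X : Polynomial K) •
            (φ u).map Polynomial.C + (φ x).map Polynomial.C)) := by
        rw [← RingHom.map_det]
        rfl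
      rw [h1, hev]
      simp only [map_add, map_smul]
      congr 1
      ext a c
      simp only [RingHom.mapMatrix_apply, Matrix.add_apply, Matrix.map_apply, Matrix.smul_apply,
        smul_eq_mul, Polynomial.coe_evalRingHom, Polynomial.eval_mul, Polynomial.eval_X,
        Polynomial.eval_C]
      ring

theorem totalDegree_rename_le' {K σ τ : Type} [Field K] (f : σ → τ) (P : MvPolynomial σ K) :
    (rename f P).totalDegree ≤ P.totalDegree := totalDegree_rename_le f P

theorem layer (K : Type) [Field K] [Fintype K] (d : ℕ) :
    ∃ D : ℕ, 2 * D = d * (d + 1) ∧ ∃ F : MvPolynomial (Fin D) K, F.totalDegree ≤ d ∧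
    ∀ x u : Fin D → K, u ≠ 0 →
    ∃ g : Polynomial K, 1 ≤ g.natDegree ∧ g.natDegree ≤ d ∧
      ∀ s : K, eval (x + s • u) F = g.eval s := by
  induction d with
  | zero =>
    refine ⟨0, rfl, 0, by simp, ?_⟩
    intro x u hu
    exfalso
    apply hu
    funext i
    exact Fin.elim0 i
  | succ d ih =>
    obtain ⟨D, hD, F, hFd, hF⟩ := ih
    obtain ⟨N, hNd, hN⟩ := norm_form K (d + 1) (Nat.succ_ne_zero d)
    refine ⟨D + (d + 1), by linarith [hD, mul_comm d (d + 1)],
      rename (Fin.castAdd (d + 1)) F + rename (Fin.natAdd D) N, ?_, ?_⟩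
    · refine (totalDegree_add _ _).trans (max_le ?_ ?_)
      · exact (totalDegree_rename_le _ _).trans (hFd.trans (Nat.le_succ d))
      · exact (totalDegree_rename_le _ _).trans hNd
    have hev : ∀ x : Fin (D + (d + 1)) → K,
        eval x (rename (Fin.castAdd (d + 1)) F + rename (Fin.natAdd D) N) =
          eval (fun i => x (Fin.castAdd (d + 1) i)) F + eval (fun i => x (Fin.natAdd D i)) N := by
      intro x
      rw [map_add, eval_rename, eval_rename]
      rfl
    intro x u hu
    obtain ⟨g, hg1, hg2, hg3, hg4⟩ := hN (fun i => x (Fin.natAdd D i))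
      (fun i => u (Fin.natAdd D i))
    by_cases hv : (fun i => u (Fin.castAdd (d + 1) i)) = (0 : Fin D → K)
    · have hw : (fun i => u (Fin.natAdd D i)) ≠ (0 : Fin (d + 1) → K) := by
        intro hw
        apply hu
        funext i
        refine Fin.addCases (fun i => ?_) (fun i => ?_) i
        · exact congrFun hv i
        · exact congrFun hw i
      have hc := hg2 hw
      have hdeg : g.natDegree = d + 1 := le_antisymm hg1 (Polynomial.le_natDegree_of_ne_zero hc)
      refine ⟨Polynomial.C (eval (fun i => x (Fin.castAdd (d + 1) i)) F) + g, ?_, ?_, ?_⟩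
      · rw [Polynomial.natDegree_C_add, hdeg]
        omega
      · rw [Polynomial.natDegree_C_add, hdeg]
      · intro s
        rw [hev]
        have h1 : (fun i => (x + s • u) (Fin.castAdd (d + 1) i)) =
            (fun i => x (Fin.castAdd (d + 1) i)) := by
          funext i
          have := congrFun hv i
          simp only [Pi.zero_apply] at this
          simp [this]
        have h2 : (fun i => (x + s • u) (Fin.natAdd D i)) =
            (fun i => x (Fin.natAdd D i)) + s • (fun i => u (Fin.natAdd D i)) := by
          funext i
          simp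
        simp only [h1, h2, hg4 s, Polynomial.eval_add, Polynomial.eval_C]
    · obtain ⟨f, hf1, hf2, hf3⟩ := hF (fun i => x (Fin.castAdd (d + 1) i))
        (fun i => u (Fin.castAdd (d + 1) i)) hv
      have hval : ∀ s : K, eval (x + s • u) (rename (Fin.castAdd (d + 1)) F +
          rename (Fin.natAdd D) N) = (f + g).eval s := by
        intro s
        rw [hev]
        have h1 : (fun i => (x + s • u) (Fin.castAdd (d + 1) i)) =
            (fun i => x (Fin.castAdd (d + 1) i)) + s • (fun i => u (Fin.castAdd (d + 1) i)) := by
          funext i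
          simp
        have h2 : (fun i => (x + s • u) (Fin.natAdd D i)) =
            (fun i => x (Fin.natAdd D i)) + s • (fun i => u (Fin.natAdd D i)) := by
          funext i
          simp
        rw [h1, h2, hf3 s, hg4 s, Polynomial.eval_add]
      refine ⟨f + g, ?_, ?_, hval⟩
      · by_cases hw : (fun i => u (Fin.natAdd D i)) = (0 : Fin (d + 1) → K)
        · rw [hg3 hw, Polynomial.natDegree_add_C]
          exact hf1
        · have h3 : (f + g).coeff (d + 1) ≠ 0 := by
            rw [Polynomial.coeff_add, Polynomial.coeff_eq_zero_of_natDegree_lt (by omega), zero_add]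
            exact hg2 hw
          have := Polynomial.le_natDegree_of_ne_zero h3
          omega
      · refine (Polynomial.natDegree_add_le _ _).trans (max_le (by omega) hg1)

end Pool.Agent.Q155.CW
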